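import Pool.Agent.Results.MP_c404d3_gt.CableCounterexample

/-!
Parked: the earlier hand-in, a consequence of `CableCounterexample`.
-/

namespace Pool.Agent.Work.MP_c404d3_gt.Parked

open Pool.Agent.Work.MP_c404d3_gt Filter Topology

theorem counterexample : ∃ (N : ℕ) (w : Word), IsKnot N w ∧ ∀ V : ℝ,
    ¬ Tendsto (fun r : ℕ => 2 * Real.pi / (r : ℝ) * Real.log (stateNorm N w r)) atTop (𝓝 V) := by
  obtain ⟨N, w, -, h, h'⟩ := Pool.Agent.Results.MP_c404d3_gt.CableCounterexample.result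
  exact ⟨_, _, h, h'⟩

end Pool.Agent.Work.MP_c404d3_gt.Parked
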